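import Mathlib
import Pool.Agent.Q72.FockR.Top

/-!
# MP_bbe01f_an: characterisation of Fock spaces by radial derivatives
-/

set_option autoImplicit false

open MeasureTheory ENNReal

namespace Pool.Agent.Results.MP_bbe01f_an.RadialCharacterisation

open Q72.FockR

/-- For every `n ≥ 1`, `0 < p ≤ ∞`, `α > 0`, `N ≥ 1` and every entire `f` on `ℂⁿ`:
`f ∈ F^p_α` if and only if `R^N f (z) / (1 + |z|²)^N ∈ L^p_α`. -/
theorem result (n : ℕ) (hn : 1 ≤ n) (p : ℝ≥0∞) (hp : 0 < p) (α : ℝ) (hα : 0 < α) (N : ℕ)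
    (hN : 1 ≤ N) (f : EuclideanSpace ℂ (Fin n) → ℂ) (hf : Differentiable ℂ f) :
    MemL p α f ↔
      MemL p α (fun z => (radial^[N] f) z / (((1 + ‖z‖ ^ 2) ^ N : ℝ) : ℂ)) := by
  have h0 : ∀ m : ℕ, MemL p α f ↔
      MemL p α (fun z => (radial^[m] f) z / (((1 + ‖z‖ ^ 2) ^ m : ℝ) : ℂ)) := by
    intro m
    induction m with
    | zero => simp
    | succ m ih =>
      rw [ih, step hn hp.ne' hα m (differentiable_iterate hf m), Function.iterate_succ_apply']
  exact h0 N

end Pool.Agent.Results.MP_bbe01f_an.RadialCharacterisation
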